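import Pool.Agent.Helper35.PQF.St

/-!
# Project AS (MP_d112a4_gt): Bers slices over a complete curve are asymptotic for the pressure metric

Frame of project PQF (helper35): `Pot u j` (file `Pool/Agent/Helper35/PQF/Defs.lean`): on the unit disc `u ≥ 1/2` and for every `p` there is
a holomorphic `G = G_p` with `Re G z = j p z * u z ≥ u z` and `Re G p = u p`.  So `Re G_p` is a positive harmonic majorant of `u`, equal to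
`u` at `p`, `j p z ≥ 1`.  All statements of `PQF/St.lean` are proved there and may be used as hypotheses (`St_HK` Harnack, `St_RA2` continuity of `u`,
`St_CS` Cauchy-Schwarz, `St_PO` the frame for a holomorphic disc, `St_QF`).

ALL MODULES ARE INDEPENDENT: what a module uses is a hypothesis of its theorem.
-/

set_option autoImplicit false

open Filter Topology Matrix Set MeasureTheory
open scoped ENNReal ComplexOrder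

namespace Pool.Agent.Helper69.AS

open Pool.Agent.Helper35.PM

/-- The automorphism `ζ ↦ (ζ + a)/(1 + ā ζ)` of the unit disc, `0 ↦ a`. -/
noncomputable def mob (a ζ : ℂ) : ℂ := (ζ + a) / (1 + (starRingEnd ℂ) a * ζ)

/-- The defect of the mean value property on the disc of radius `s` about `0` (area mean). -/
noncomputable def df (s : ℝ) (u : ℂ → ℝ) : ℝ := u 0 - ⨍ ζ in Metric.ball (0 : ℂ) s, u ζ

/-- MODULE MB (about 80-140 lines). `theorem hMB : StMB`.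
PROOF. Let `|a| < 1`, `|ζ| < 1`. `1 + ā ζ ≠ 0` as `|ā ζ| < 1`. Identity `|1 + ā ζ|² - |ζ + a|² = (1 - |a|²)(1 - |ζ|²) > 0`, so `|mob a ζ| < 1`. More precisely
`1 - |mob a ζ|² = (1-|a|²)(1-|ζ|²)/|1 + ā ζ|²` and `|1 + ā ζ| ≤ 1 + |a||ζ|`, so `1 - |mob|² ≥ (1-|a|²)(1-|ζ|²)/(1+|a||ζ|)² = 1 - ((|a|+|ζ|)/(1+|a||ζ|))²`: second claim. Holomorphic in `ζ`
(quotient). `mob (-a) (mob a ζ) = ζ` (field_simp). Last claim: `q = (b - z)/(1 - z̄ b) = mob (-z) b`, direct computation: `mob z (mob q ζ) = (ζ (1 + z q̄) + (z + q))/((1 + z̄ q) + (z̄ + q̄) ζ)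
= c (ζ + b')/(1 + b̄' ζ)` with `c = (1 + z q̄)/(1 + z̄ q)` (`|c| = 1`), `b' = (z+q)/(1 + z q̄)`; and `c b' = (z + q)/(1 + z̄ q) = mob z q = b`, so this is `c (ζ + c̄ b)/(1 + c b̄ ζ) = (c ζ + b)/(1 + b̄ c ζ) = mob b (c ζ)`. -/
def StMB : Prop := (∀ a ζ : ℂ, ‖a‖ < 1 → ‖ζ‖ < 1 → ‖mob a ζ‖ < 1 ∧ ‖mob a ζ‖ ≤ (‖a‖ + ‖ζ‖) / (1 + ‖a‖ * ‖ζ‖) ∧ mob (-a) (mob a ζ) = ζ) ∧
  (∀ a : ℂ, ‖a‖ < 1 → DifferentiableOn ℂ (mob a) (Metric.ball 0 1)) ∧ (∀ a : ℂ, mob a 0 = a) ∧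
  ∀ z b : ℂ, ‖z‖ < 1 → ‖b‖ < 1 → ∃ c : ℂ, ‖c‖ = 1 ∧ ∀ ζ : ℂ, ‖ζ‖ < 1 → mob z (mob (mob (-z) b) ζ) = mob b (c * ζ)

/-- MODULE PC (about 20-40 lines). `theorem hPC : StPC`. PROOF. `u (T z) ≥ 1/2`; for `p` take `G_{T p} ∘ T`. -/
def StPC : Prop := ∀ (u : ℂ → ℝ) (j : ℂ → ℂ → ℝ), Pot u j → ∀ T : ℂ → ℂ, DifferentiableOn ℂ T (Metric.ball 0 1) →
  MapsTo T (Metric.ball 0 1) (Metric.ball 0 1) → Pot (fun z => u (T z)) (fun p z => j (T p) (T z))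

/-- MODULE MV (about 60-120 lines): area mean value property. `theorem hMV : StMV`.
PROOF. `G` is continuous on the closed disc about `c` (contained in `𝔻`), so integrable. For a circle `|ζ - c| = ρ`, `ρ ≤ r`, the circle mean of `G` is `G c` (`DiffContOnCl.circleAverage`, `circleAverage_of_differentiable_on`, or the Cauchy formula
`Complex.two_pi_I_inv_smul_circleIntegral_sub_inv_smul_of_differentiable_on_off_countable`). Polar coordinates (`Complex.integral_comp_polarCoord_symm` after translation by `c`) give `∫_{B(c,r)} G = ∫_0^r ρ (2π G c) dρ = π r² G c`.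
Or: holomorphic functions have a primitive/power series; or `G - G c = (ζ - c) H`, and the rotations `ζ ↦ c + e^{iθ}(ζ - c)` preserve the measure: with `G_n(ζ) = (1/n) Σ_k G(c + ω^k (ζ - c))` the integral of `G` equals that of `G_n`, and
`G_n → G c` uniformly on the closed disc (power series: only exponents divisible by `n` survive). Take real parts. -/
def StMV : Prop := ∀ (G : ℂ → ℂ), DifferentiableOn ℂ G (Metric.ball 0 1) → ∀ (c : ℂ) (r : ℝ), 0 < r → ‖c‖ + r < 1 →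
  IntegrableOn (fun ζ => (G ζ).re) (Metric.ball c r) ∧ (⨍ ζ in Metric.ball c r, (G ζ).re) = (G c).re

/-- MODULE FL (flatness, about 60-110 lines), `theorem hFL (hRA2 : St_RA2) (hMV : StMV) : StFL`.
PROOF. `u` is continuous on `𝔻` (RA2) and bounded on closed smaller discs, so integrable on `B(c,r)`, `|c| + r < 1`. First claim: `u ≤ Re G_c`, mean value (MV) of `Re G_c`: `⨍_{B(c,r)} u ≤ Re G_c (c) = u c`. With `c = 0`: `0 ≤ df s u`. Second claim: `G = G_0` of `Pot` at `0`,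
`g = Re G - u ≥ 0`, `⨍_{B(0,s)} g = Re G 0 - ⨍ u = df s u`. For `|ζ| ≤ σ < s`, `r = s - σ` (`B(ζ,r) ⊆ B(0,s)`): `g ζ = Re G ζ - u ζ ≤ ⨍_{B(ζ,r)} Re G - ⨍_{B(ζ,r)} u = ⨍_{B(ζ,r)} g ≤ (s²/r²) ⨍_{B(0,s)} g` (`g ≥ 0`, ratio of the areas). Here `⨍_{B(ζ,r)} u ≤ u ζ` is the first claim. -/
def StFL : Prop := ∀ (u : ℂ → ℝ) (j : ℂ → ℂ → ℝ), Pot u j → ∀ s : ℝ, 0 < s → s < 1 →
  (∀ (c : ℂ) (r : ℝ), 0 < r → ‖c‖ + r < 1 → IntegrableOn u (Metric.ball c r) ∧ (⨍ ζ in Metric.ball c r, u ζ) ≤ u c) ∧ 0 ≤ df s u ∧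
  ∀ (σ : ℝ), 0 ≤ σ → σ < s → ∃ G : ℂ → ℂ, DifferentiableOn ℂ G (Metric.ball 0 1) ∧ (G 0).re = u 0 ∧
    ∀ ζ : ℂ, ‖ζ‖ ≤ σ → u ζ ≤ (G ζ).re ∧ (G ζ).re - u ζ ≤ (s / (s - σ)) ^ 2 * df s u

/-- MODULE CD (comparison of defects, about 40-80 lines), `theorem hCD (hMB : StMB) (hMV : StMV) (hFL : StFL) : StCD`.
PROOF. `σ = (|q| + s₁)/(1 + |q| s₁) < s < 1`; for `|ζ| < s₁`: `|mob q ζ| ≤ σ` (MB; `t ↦ (|q|+t)/(1+|q|t)` is increasing). With `G` of FL: `E = (s/(s-σ))² df s u`, `u ≤ Re G ≤ u + E` at all points `mob q ζ`, `|ζ| < s₁` (also `ζ = 0`: `mob q 0 = q`, `|q| ≤ σ`).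
`H = G ∘ mob q` is holomorphic on `𝔻`. `df s₁ (u ∘ mob q) = u q - ⨍ u(mob q ζ) ≤ Re H 0 - ⨍ (Re H - E) = E` (MV for `H`, `c = 0`; integrability of `u ∘ mob q` on `B(0,s₁)`: FL first claim for the composition (hypothesis `Pot` of `u ∘ mob q` from `hPC` if you want), or continuity). -/
def StCD : Prop := ∀ (u : ℂ → ℝ) (j : ℂ → ℂ → ℝ), Pot u j → ∀ (q : ℂ) (s₁ s : ℝ), ‖q‖ < 1 → 0 < s₁ → (‖q‖ + s₁) / (1 + ‖q‖ * s₁) < s → s < 1 →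
  df s₁ (fun ζ => u (mob q ζ)) ≤ (s / (s - (‖q‖ + s₁) / (1 + ‖q‖ * s₁))) ^ 2 * df s u

/-- MODULE GP (descending path, about 60-110 lines), `theorem hGP (hMB : StMB) (hPC : StPC) (hFL : StFL) : StGP`.
PROOF. `s = tanh (ℓ/2)`. Suppose that `κ < df s (u ∘ mob z)` for all `z` with `|z| ≤ tanh (N ℓ/2)`, where `κ = (u 0 - 1/2)/N ≥ 0`. Claim: for `n ≤ N` there is `z_n` with `|z_n| ≤ tanh (n ℓ/2)` and `u z_n ≤ u 0 - n κ`, strictly for `n ≥ 1`. `z_0 = 0`. Step: `n < N`, `z = z_n`: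
`⨍_{B(0,s)} u (mob z ζ) < u z - κ` (`mob z 0 = z`), so some `ζ ∈ B(0,s)` has `u (mob z ζ) < u z - κ` (otherwise the mean would be `≥`; measure positive and finite, integrable by FL for `u ∘ mob z` (PC)), `z_{n+1} = mob z ζ`,
`|z_{n+1}| ≤ (|z| + |ζ|)/(1 + |z||ζ|) ≤ tanh ((n+1)ℓ/2)` (addition formula of `tanh`, monotone in both entries). At `n = N ≥ 1`: `u z_N < u 0 - N κ = 1/2`, contradicting `u ≥ 1/2`. -/
def StGP : Prop := ∀ (u : ℂ → ℝ) (j : ℂ → ℂ → ℝ), Pot u j → ∀ (ℓ : ℝ) (N : ℕ), 0 < ℓ → 1 ≤ N →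
  ∃ z : ℂ, ‖z‖ ≤ Real.tanh (N * ℓ / 2) ∧ df (Real.tanh (ℓ / 2)) (fun ζ => u (mob z ζ)) ≤ (u 0 - 1 / 2) / N

/-- MODULE SD (second differences on a flat disc, about 120-200 lines), `theorem hSD (hHK : St_HK) (hMB : StMB) : StSD`. Here `zt t = tanh (t/2)` (PQF Defs).
PROOF. `K = Re G`, `g t = K (zt t) - u (zt t) ∈ [0, E]` for `|t| ≤ L + 1`. Let `|t| ≤ L`, `0 < h ≤ 1/4`, `G_t` the function of `Pot` at `p = zt t`, `φ_t = mob (zt t)`; `φ_t (zt x) = zt (t + x)`, `φ_t (- zt x) = zt (t - x)` (addition formula). Let `τ = zt 1 = tanh(1/2) ≥ 0.46`.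
For `|ζ| ≤ τ`: `|φ_t ζ| ≤ tanh ((|t| + 1)/2) ≤ tanh ((L+1)/2)`, so `u ≤ K ≤ u + E` at `φ_t ζ` and `P ζ := Re G_t (φ_t ζ) - K (φ_t ζ) + E ≥ u - K + E ≥ 0`; `P 0 = u (zt t) - K (zt t) + E ∈ [0, E]`. `F ζ = G_t(φ_t (τ ζ)) - G(φ_t (τ ζ)) + E` is holomorphic on `𝔻` with `Re F ≥ 0`: HK at `ζ = ± zt h/τ`, `x = zt h / τ`,
`zt h = tanh (h/2) ≤ h/2`, so `x ≤ 1.1 h ≤ 0.28`: (1) `P (zt h) + P (-zt h) ≤ 2 ((1+x²)/(1-x²)) P 0 ≤ 2 P 0 + 4 x²/(1-x²) E ≤ 2 P 0 + 6 h² E`; (2) `P (± zt h) ≤ (1+x)/(1-x) P 0 ≤ P 0 + 2x/(1-x) E ≤ P 0 + 4 h E`.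
From (1): `Re G_t(zt(t+h)) + Re G_t(zt(t-h)) - 2 u(zt t) ≤ K(zt(t+h)) + K(zt(t-h)) - 2 K(zt t) + 6 h² E`, and `Re G_t z = j (zt t) z * u z`, so `(j(t,t+h)-1) u(t+h) + (j(t,t-h)-1) u(t-h) ≤ g(t+h) + g(t-h) - 2 g t + 6 h² E`; `u ≥ 1/2` and `j ≥ 1` (`Re G_t ≥ u > 0`) give the first claim.
Second claim: `u(t+h) ≤ Re G_t(zt (t+h))`, so by (2) `g(t+h) - g t ≥ (K - Re G_t)(zt(t+h)) - (K - Re G_t)(zt t) = P 0 - P (zt h) ≥ -4 h E`; and with `G_{t+h}` (the point `t+h`, `|t + h| ≤ L + 1/4`; do the estimate (2) for `|t| ≤ L + 1/4`, radius `τ' = zt (3/4)` instead, adjust constants)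
`g(t+h) - g t ≤ (K - Re G_{t+h})(zt(t+h)) - (K - Re G_{t+h})(zt t) = P_{t+h}(- zt h) - P_{t+h}(0) ≤ 4 h E`. (It is fine to use `τ = zt (1/2)` everywhere: then `x = zt h/zt (1/2) ≤ (h/2)/0.24 ≤ 2.1 h`; the constants `100` below leave room for `h ≤ 1/8`.) -/
def StSD : Prop := ∀ (u : ℂ → ℝ) (j : ℂ → ℂ → ℝ), Pot u j → ∀ (L E : ℝ) (G : ℂ → ℂ), 0 ≤ L → 0 ≤ E → DifferentiableOn ℂ G (Metric.ball 0 1) →
  (∀ ζ : ℂ, ‖ζ‖ ≤ Real.tanh ((L + 1) / 2) → u ζ ≤ (G ζ).re ∧ (G ζ).re - u ζ ≤ E) →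
  (∀ t h : ℝ, |t| ≤ L → 0 < h → h ≤ 1 / 8 →
    j (zt t) (zt (t + h)) + j (zt t) (zt (t - h)) - 2 ≤
      2 * (((G (zt (t + h))).re - u (zt (t + h))) + ((G (zt (t - h))).re - u (zt (t - h))) - 2 * ((G (zt t)).re - u (zt t)) + 100 * h ^ 2 * E)) ∧
  ∀ t h : ℝ, |t| ≤ L + 1 / 8 → 0 < h → h ≤ 1 / 8 →
    |((G (zt (t + h))).re - u (zt (t + h))) - ((G (zt t)).re - u (zt t))| ≤ 100 * h * E

/-- MODULE EN (one real variable, Fatou, about 100-160 lines), `theorem hEN : StEN`. Compare module GE2 of PQF (`Pool/Agent/Helper78/PM/M_GE2.lean`).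
PROOF. `j' t s`, `g` continuous on `[-1/8, L + 1/8]`. `k_h(t) = g(t+h) - g(t)`. For `t ∈ (0,L)`, `0 < h ≤ 1/8`: `j t (t+h) + j t (t-h) - 2 ≤ E_h(t) := 2 (k_h(t) - k_h(t-h) + 100 h² E)`; the left side is `≥ 0`. `q t = liminf_n ofReal (E_{1/(n+8)}(t) (n+8)²)` (as a function on `ℝ`, cut off by the indicator of `(0,L)` for measurability;
measurable: liminf of measurable functions). The liminf along `𝓝[>] 0` is at most the liminf along the sequence. Fatou: `∫⁻_{(0,L)} q ≤ liminf ∫⁻_{(0,L)} ofReal (E_h/h²)`, `= ofReal (∫_0^L E_h/h²)` as `E_h ≥ 0`, and `∫_0^L (k_h(t) - k_h(t-h)) dt = ∫_{L-h}^L k_h - ∫_{-h}^0 k_h ≤ 200 h² E`. So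
`∫_0^L E_h/h² ≤ 2 (200 E + 100 L E)`. -/
def StEN : Prop := ∀ (j : ℝ → ℝ → ℝ) (g : ℝ → ℝ) (L E : ℝ), 0 ≤ L → 0 ≤ E → ContinuousOn g (Icc (-(1 / 4)) (L + 1 / 4)) →
  (∀ t s, 1 ≤ j t s) →
  (∀ t h : ℝ, 0 ≤ t → t ≤ L → 0 < h → h ≤ 1 / 8 → j t (t + h) + j t (t - h) - 2 ≤ 2 * (g (t + h) + g (t - h) - 2 * g t + 100 * h ^ 2 * E)) →
  (∀ t h : ℝ, -(1 / 8) ≤ t → t ≤ L → 0 < h → h ≤ 1 / 8 → |g (t + h) - g t| ≤ 100 * h * E) →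
  ∃ q : ℝ → ℝ≥0∞, Measurable q ∧
    (∀ t ∈ Ioo 0 L, liminf (fun δ : ℝ => ENNReal.ofReal ((j t (t + δ) + j t (t - δ) - 2) / δ ^ 2)) (𝓝[>] 0) ≤ q t) ∧
    ∫⁻ t in Ioo 0 L, q t ≤ ENNReal.ofReal (400 * (L + 1) * E)

/-- MODULE DD (pressure distance on a flat disc, about 90-150 lines), `theorem hDD (hQF : St_QF) (hPO : St_PO) (hRA2 : St_RA2) (hCS : St_CS) (hFL : StFL) (hSD : StSD) (hEN : StEN) (hPC : StPC) : StDD`. Compare module F1 of PQF (`Pool/Agent/Helper24/PM/M_F1.lean`).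
PROOF. Let `L ≥ 0`, `zt L ≤ R'`-form: `ζ = |ζ| e^{iθ}`, `|ζ| = zt L` with `0 ≤ L ≤ R`; the disc `f' z = f (e^{iθ} z)` is a `HolDisc`, `u' z = u (e^{iθ} z)`, `df s u' = df s u` (rotation invariance of the area; or treat the rotation inside `Pot` by PC with `T z = e^{iθ} z`). `Pot` by `hPO` (`Facts` by `hQF`) for `u z = 1/ent (f' z)`,
`j p z = J (U (f' p)) (f' p) (f' z)`. FL with `σ = tanh ((R+1)/2) < s = tanh ((R+2)/2)`: `G`, `E = (s/(s-σ))² df s u'`. SD (for this `L`), EN with `g t = Re G (zt t) - u' (zt t)` (continuous by RA2): `q` with integral `≤ 400 (L+1) E`; CS with `k = 1`: `q₁² = q`, `∫⁻ q₁ ≤ (400 (L+1) E)^{1/2} L^{1/2}`.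
`LengthLE` for `c t = f' (zt t)`, smooth path as in F1, `PressureLE.path`, `sInf_le`; `zt 0 = 0`. `L = 0`: distance `0` by `PressureLE.conj` with `B = 1` (or the same). So `C = (400 (R+1) R)^{1/2} s/(s-σ)` works (increase it to be positive). -/
def StDD : Prop := ∀ R : ℝ, 0 ≤ R → ∃ C : ℝ, 0 < C ∧ ∀ g : ℕ, 2 ≤ g → ∀ U : (SurfaceGroup g →* SL) → Ultrafilter ℝ, (∀ ρ, IsQF ρ → Adapted (U ρ) ρ) →
  ∀ f : ℂ → SurfaceGroup g →* SL, HolDisc f → ∀ ζ : ℂ, ‖ζ‖ ≤ Real.tanh (R / 2) →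
    pressureDist U (f 0) (f ζ) ≤ ENNReal.ofReal (C * Real.sqrt (df (Real.tanh ((R + 2) / 2)) (fun z => 1 / ent (f z))))

/-- The mapping class `φ` moves `ρ` to `σ` (up to conjugacy and signs). -/
def SameUpTo {Γ : Type} [Group Γ] (φ : Γ ≃* Γ) (ρ σ : Γ →* SL) : Prop :=
  ∃ B : SL, ∀ γ, (σ γ : Mat) = ((B * ρ (φ γ) * B⁻¹ : SL) : Mat) ∨ (σ γ : Mat) = -((B * ρ (φ γ) * B⁻¹ : SL) : Mat)

/-- MODULE IV (invariance of the entropy, about 60-120 lines), `theorem hIV (hLN : St_LN) : StIV` (`St_LN`: `len ρ (ConjClasses.mk γ) = tl (ρ γ)`).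
PROOF. `tl` depends only on the roots of `μ² - tr μ + 1`, so on the trace; `tl (-A) = tl A`-type: if the matrices of `A` and `A'` satisfy `A' = ± A''` with `A''` conjugate to `A`: the trace is `± tr A`; for `-tr A` the roots are the negatives, with the same `log ‖μ‖`. So `tl (σ γ) = tl (ρ (φ γ))`. The bijection
`ConjClasses.map φ` of the conjugacy classes (inverse `ConjClasses.map φ.symm`) satisfies `len σ c = len ρ (ConjClasses.map φ c)` (St_LN), so it maps `classes σ T` onto `classes ρ T`, the numbers `num` agree, and so do the entropies. -/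
def StIV : Prop := ∀ (Γ : Type) [Group Γ] (φ : Γ ≃* Γ) (ρ σ : Γ →* SL), SameUpTo φ ρ σ → ent σ = ent ρ

/-- The automorphism `z ↦ mob a (c z)` of the disc and its mirror image `w ↦ conj (mob a (c conj w))`. -/
noncomputable def autT (c a z : ℂ) : ℂ := mob a (c * z)
noncomputable def autM (c a w : ℂ) : ℂ := (starRingEnd ℂ) (mob a (c * (starRingEnd ℂ) w))

/-- MODULE EQ (equivariance, about 80-140 lines), `theorem hEQ (hMB : StMB) (hPC : StPC) (hFL : StFL) (hCD : StCD) (hGP : StGP) : StEQ`. Abstract: `u z w` plays the role of `1/ent (F z w)`.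
PROOF. Let `s₁ = tanh ((R+2)/2)`, `t₀ = ρ₀`, `s = tanh (ℓ/2)` with `ℓ` so large that `σ₀ := (ρ₀ + s₁)/(1 + ρ₀ s₁) < s`, `C = max of (s/(s-σ₀))², ℓ + log ((1+ρ₀)/(1-ρ₀))` and `1`. GP for `u(·,0)`: `z` with `|z| ≤ tanh (N ℓ/2)` and `df s (ζ ↦ u (mob z ζ) 0) ≤ (u 0 0 - 1/2)/N`. Cocompactness: `(c,a)` in the set with `|mob (-z) a| ≤ ρ₀`. `q = mob (-z) a`,
MB: `mob z (mob q ζ) = mob a (c' ζ)`. CD for the `Pot` function `ζ ↦ u (mob z ζ) 0` (PC), `q`: `df s₁ (ζ ↦ u (mob a (c' ζ)) 0) ≤ (s/(s-σ))² (u 0 0 - 1/2)/N` with `σ = (|q|+s₁)/(1+|q|s₁) ≤ σ₀`. Rotation invariance of the area mean on `B(0,s₁)`: the same for `ζ ↦ u (mob a (c ζ)) 0` (`|c| = |c'| = 1`; substitute `ζ ↦ (c/c') ζ`,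
`LinearIsometry`/`Complex.rotation` preserves the volume). Let `w` be with `autM c a w = 0`, that is `c * conj w = -a`, `w = conj (-a/c)`, `|w| = |a| < 1`. Invariance: `u (autT c a ζ) 0 = u (autT c a ζ) (autM c a w) = u ζ w`. So `df s₁ (u(·,w)) ≤ C (u 0 0 - 1/2)/N`.
Size: `a = mob z (mob (-z) a)`, so `|a| ≤ (|z| + ρ₀)/(1 + |z| ρ₀)`, and `(1+|a|)/(1-|a|) ≤ ((1+|z|)/(1-|z|)) ((1+ρ₀)/(1-ρ₀)) ≤ exp (N ℓ) (1+ρ₀)/(1-ρ₀) ≤ exp (C N)` (`(1 + tanh x)/(1 - tanh x) = exp (2x)`). -/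
def StEQ : Prop := ∀ R ρ₀ : ℝ, 0 ≤ R → 0 ≤ ρ₀ → ρ₀ < 1 → ∃ C : ℝ, 0 < C ∧ ∀ (u : ℂ → ℂ → ℝ) (j : ℂ → ℂ → ℝ) (A : Set (ℂ × ℂ)),
  Pot (fun z => u z 0) j → (∀ x ∈ A, ‖x.1‖ = 1 ∧ ‖x.2‖ < 1) →
  (∀ x ∈ A, ∀ z w : ℂ, ‖z‖ < 1 → ‖w‖ < 1 → u (autT x.1 x.2 z) (autM x.1 x.2 w) = u z w) →
  (∀ z : ℂ, ‖z‖ < 1 → ∃ x ∈ A, ‖mob (-z) x.2‖ ≤ ρ₀) → ∀ N : ℕ, 1 ≤ N →
  ∃ w : ℂ, ‖w‖ < 1 ∧ (1 + ‖w‖) / (1 - ‖w‖) ≤ Real.exp (C * N) ∧ df (Real.tanh ((R + 2) / 2)) (fun z => u z w) ≤ C * ((u 0 0 - 1 / 2) / N)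

/-- MODULE TH (assembly, about 60-110 lines), `theorem hTH (hQF : St_QF) (hPO : St_PO) (hFL : StFL) (hDD : StDD) (hIV : StIV) (hEQ : StEQ) : StTH`.
PROOF. `C₁` from DD (with `R`), `C₂` from EQ. `u z w = 1/ent (F z w)`. `Pot (u(·,0))` by PO and QF (`HolDisc (F(·,0))`). Invariance of `u` by IV. `w` from EQ; for `z, z'` with modulus `≤ tanh (R/2)`: `d_P(F z w, F z' w) ≤ d_P(F 0 w, F z w) + d_P(F 0 w, F z' w)` (triangle inequality and symmetry of `pressureDist`: to avoid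
symmetry use the path `z → 0 → z'`: the reversed path. EASIER: apply DD twice needs `d_P(F z w, F 0 w)`: symmetry is NOT needed if the conclusion is stated with the base point `0`, see the statement). `√(C₂ (u 0 0 - 1/2)/N) `, `u 0 0 - 1/2 = (2 - h)/(2h)`, `h = ent (F 0 0) > 0`. -/
def StTH : Prop := ∀ R ρ₀ : ℝ, 0 ≤ R → 0 ≤ ρ₀ → ρ₀ < 1 → ∃ C : ℝ, 0 < C ∧ ∀ g : ℕ, 2 ≤ g →
  ∀ U : (SurfaceGroup g →* SL) → Ultrafilter ℝ, (∀ ρ, IsQF ρ → Adapted (U ρ) ρ) →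
  ∀ (F : ℂ → ℂ → SurfaceGroup g →* SL) (A : Set (ℂ × ℂ)), (∀ w : ℂ, ‖w‖ < 1 → HolDisc (fun z => F z w)) →
  (∀ x ∈ A, ‖x.1‖ = 1 ∧ ‖x.2‖ < 1) →
  (∀ x ∈ A, ∃ φ : SurfaceGroup g ≃* SurfaceGroup g, ∀ z w : ℂ, ‖z‖ < 1 → ‖w‖ < 1 → SameUpTo φ (F z w) (F (autT x.1 x.2 z) (autM x.1 x.2 w))) →
  (∀ z : ℂ, ‖z‖ < 1 → ∃ x ∈ A, ‖mob (-z) x.2‖ ≤ ρ₀) → ∀ N : ℕ, 1 ≤ N →
  ∃ w : ℂ, ‖w‖ < 1 ∧ (1 + ‖w‖) / (1 - ‖w‖) ≤ Real.exp (C * N) ∧ ∀ z : ℂ, ‖z‖ ≤ Real.tanh (R / 2) →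
    pressureDist U (F 0 w) (F z w) ≤ ENNReal.ofReal (C * Real.sqrt ((2 - ent (F 0 0)) / (ent (F 0 0) * N)))

end Pool.Agent.Helper69.AS
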