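import Pool.Agent.Helper35.PQF.All
import Pool.Agent.Helper69.AS.St
import Pool.Agent.Helper92.AS.M_MB
import Pool.Agent.Helper26.AS.M_PC
import Pool.Agent.Helper40.AS.M_MV
import Pool.Agent.Helper28.AS.M_FL
import Pool.Agent.Helper72.AS.M_CD
import Pool.Agent.Helper80.AS.M_GP
import Pool.Agent.Helper27.AS.M_SD
import Pool.Agent.Helper41.AS.M_EN
import Pool.Agent.Helper27.AS.M_DD
import Pool.Agent.Helper21.AS.M_IV
import Pool.Agent.Helper38.AS.M_EQ
import Pool.Agent.Helper24.AS.M_TH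

/-! # Project AS: assembly of the modules -/

namespace Pool.Agent.Helper69.AS

open Pool.Agent.Helper35.PM

theorem mb_ : StMB := Pool.Agent.Helper92.AS.hMB
theorem pc_ : StPC := Pool.Agent.Helper26.AS.hPC
theorem mv_ : StMV := Pool.Agent.Helper40.AS.hMV
theorem fl_ : StFL := Pool.Agent.Helper28.AS.hFL ra2_ mv_
theorem cd_ : StCD := Pool.Agent.Helper72.AS.hCD mb_ pc_ mv_ fl_
theorem gp_ : StGP := Pool.Agent.Helper80.AS.hGP mb_ pc_ fl_
theorem sd_ : StSD := Pool.Agent.Helper27.AS.hSD hk_ mb_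
theorem as_en_ : StEN := Pool.Agent.Helper41.AS.hEN
theorem dd_ : StDD := Pool.Agent.Helper27.AS.hDD qf_ po_ ra2_ cs_ fl_ sd_ as_en_ pc_
theorem iv_ : StIV := Pool.Agent.Helper21.AS.hIV ln_
theorem eq_ : StEQ := Pool.Agent.Helper38.AS.hEQ mb_ pc_ fl_ cd_ gp_
theorem th_ : StTH := Pool.Agent.Helper24.AS.hTH qf_ po_ fl_ dd_ iv_ eq_

end Pool.Agent.Helper69.AS
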